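import Pool.Agent.H29.DPC.S1

/-!
# DPC: Dirichlet's theorem
-/

set_option autoImplicit false

namespace Pool.DPC.DIR

open Polynomial Complex

/-- A number with prescribed residues. -/
theorem residues (S : Finset Nat.Primes) (M : ℕ)
    (hS : ∀ l ∈ S, (l : ℕ).Coprime M) (a : Nat.Primes → ℕ) (ha : ∀ l ∈ S, (a l).Coprime (l : ℕ)) :
    ∃ k : ℕ, k ≡ 1 [MOD M] ∧ (∀ l ∈ S, k ≡ a l [MOD (l : ℕ)]) ∧
      k.Coprime (M * ∏ l ∈ S, (l : ℕ)) := by
  classical
  have hpw : Set.Pairwise (S : Set Nat.Primes) (Function.onFun Nat.Coprime fun l : Nat.Primes => (l : ℕ)) := by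
    intro l _ l' _ h
    exact (Nat.coprime_primes l.2 l'.2).2 fun h' => h (Subtype.ext h')
  obtain ⟨k₀, hk₀⟩ := Nat.chineseRemainderOfFinset a (fun l : Nat.Primes => (l : ℕ)) S
    (fun l _ => l.2.ne_zero) hpw
  have hcop : M.Coprime (∏ l ∈ S, (l : ℕ)) :=
    Nat.Coprime.prod_right fun l hl => (hS l hl).symm
  obtain ⟨k, hk1, hk2⟩ := Nat.chineseRemainder hcop 1 k₀
  refine ⟨k, hk1, fun l hl => ?_, ?_⟩
  · exact (hk2.of_dvd (Finset.dvd_prod_of_mem _ hl)).trans (hk₀ l hl)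
  · refine Nat.Coprime.mul_right ?_ (Nat.Coprime.prod_right fun l hl => ?_)
    · have := hk1.gcd_eq
      rw [Nat.gcd_one_left] at this
      rwa [Nat.coprime_iff_gcd_eq_one]
    · have h1 : k ≡ a l [MOD (l : ℕ)] := (hk2.of_dvd (Finset.dvd_prod_of_mem _ hl)).trans (hk₀ l hl)
      have := h1.gcd_eq
      rw [Nat.coprime_iff_gcd_eq_one, this]
      exact ha l hl

theorem unit_two (u v : (ZMod 2)ˣ) : u = v := by
  revert u v
  decide

theorem _root_.Pool.DPC.t_DIR : DIRStmt := by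
  classical
  intro C hC u q hu B
  set S : Finset Nat.Primes := hC.toFinset.filter fun l => l ≠ q ∧ (l : ℕ) ≠ 2 with hS
  have hq : (q : ℕ).Prime := q.2
  have hM : 4 * (q : ℕ) ≠ 0 := by
    have := hq.pos
    omega
  have hcop : ∀ l ∈ S, (l : ℕ).Coprime (4 * (q : ℕ)) := by
    intro l hl
    obtain ⟨-, h1, h2⟩ := Finset.mem_filter.1 hl
    refine Nat.Coprime.mul_right ?_ ((Nat.coprime_primes l.2 hq).2 fun h => h1 (Subtype.ext h))
    have : (4 : ℕ) = 2 * 2 := rfl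
    rw [this]
    have h3 := (Nat.coprime_primes l.2 Nat.prime_two).2 h2
    exact Nat.Coprime.mul_right h3 h3
  have hne : ∀ l : Nat.Primes, NeZero (l : ℕ) := fun l => ⟨l.2.ne_zero⟩
  obtain ⟨k, hk1, hk2, hk3⟩ := residues S (4 * (q : ℕ)) hcop
    (fun l => ((u l : ZMod (l : ℕ))).val) (fun l _ => by
      have := hne l
      exact ZMod.val_coe_unit_coprime (u l))
  obtain ⟨D, hD⟩ : ∃ D : ℕ, ∀ l ∈ C, (l : ℕ) ≤ D :=
    ⟨∑ l ∈ hC.toFinset, (l : ℕ), fun l hl =>
      Finset.single_le_sum (f := fun l : Nat.Primes => (l : ℕ)) (fun _ _ => Nat.zero_le _)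
        (hC.mem_toFinset.2 hl)⟩
  have hmod : (4 * (q : ℕ)) * ∏ l ∈ S, (l : ℕ) ≠ 0 :=
    mul_ne_zero hM (Finset.prod_ne_zero_iff.2 fun l _ => l.2.ne_zero)
  obtain ⟨p, hpB, hp, hpk⟩ := Nat.forall_exists_prime_gt_and_modEq (max B D) hmod hk3
  have hp1 : p ≡ 1 [MOD 4 * (q : ℕ)] := (hpk.of_dvd (dvd_mul_right _ _)).trans hk1
  have hpl : ∀ l ∈ C, ((p : ℕ) : ZMod (l : ℕ)) = (u l : ZMod (l : ℕ)) := by
    intro l hl
    by_cases h1 : l = q
    · subst h1
      rw [hu, Units.val_one]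
      have : p ≡ 1 [MOD (l : ℕ)] := hp1.of_dvd (dvd_mul_left _ _)
      have := (ZMod.natCast_eq_natCast_iff _ _ _).2 this
      rw [this, Nat.cast_one]
    · by_cases h2 : (l : ℕ) = 2
      · obtain ⟨l, hl'⟩ := l
        simp only at h2
        subst h2
        rw [unit_two (u ⟨2, hl'⟩) 1, Units.val_one]
        have : p ≡ 1 [MOD 2] := hp1.of_dvd ⟨2 * (q : ℕ), by ring⟩
        have := (ZMod.natCast_eq_natCast_iff _ _ _).2 this
        rw [this, Nat.cast_one]
      · have hl' : l ∈ S := Finset.mem_filter.2 ⟨hC.mem_toFinset.2 hl, h1, h2⟩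
        have h3 : p ≡ ((u l : ZMod (l : ℕ))).val [MOD (l : ℕ)] :=
          (hpk.of_dvd ((Finset.dvd_prod_of_mem _ hl').mul_left _)).trans (hk2 l hl')
        have h4 := (ZMod.natCast_eq_natCast_iff _ _ _).2 h3
        have := hne l
        rw [h4, ZMod.natCast_val, ZMod.cast_id', id]
  refine ⟨⟨p, hp⟩, (le_max_left _ _).trans_lt hpB, ?_, ?_, ?_⟩
  · have : p % (4 * (q : ℕ)) = 1 % (4 * (q : ℕ)) := hp1
    rw [Nat.mod_eq_of_lt (a := 1) (by have := hq.pos; omega)] at this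
    exact this
  · intro h
    exact absurd (hD _ h) (not_le.2 ((le_max_right _ _).trans_lt hpB))
  · intro φ hφ
    have h1 : pair φ u = ∏ᶠ l ∈ sup φ, φ l (u l : ZMod (l : ℕ)) := by
      unfold pair
      rw [finprod_mem_def]
      refine finprod_congr fun l => ?_
      by_cases hl : l ∈ sup φ
      · rw [Set.mulIndicator_of_mem hl]
      · rw [Set.mulIndicator_of_notMem hl]
        have : φ l = 1 := not_not.1 hl
        rw [this, MulChar.one_apply_coe]
    rw [h1]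
    unfold ev
    refine finprod_mem_congr rfl fun l hl => ?_
    rw [← hpl l (hφ hl)]

end Pool.DPC.DIR
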