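import Pool.Agent.H29.DPC.S2

/-!
# DPC: the Weil bound gives the limit
-/

set_option autoImplicit false

namespace Pool.DPC.LIM

open Polynomial Complex

theorem prod_bound {δ : ℝ} (hδ : 0 ≤ δ) (s : Multiset ℂ) : (∀ z ∈ s, ‖z‖ ≤ δ) →
    ‖(s.map fun z => 1 - z).prod - 1‖ ≤ (1 + δ) ^ Multiset.card s - 1 ∧
      ‖(s.map fun z => 1 - z).prod‖ ≤ (1 + δ) ^ Multiset.card s := by
  induction s using Multiset.induction with
  | empty => simp
  | cons z s ih =>
    intro h
    obtain ⟨h1, h2⟩ := ih fun w hw => h w (Multiset.mem_cons_of_mem hw)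
    have hz := h z (Multiset.mem_cons_self z s)
    rw [Multiset.map_cons, Multiset.prod_cons, Multiset.card_cons, pow_succ]
    set Q := (s.map fun z => 1 - z).prod
    set c := (1 + δ) ^ Multiset.card s
    constructor
    · have : (1 - z) * Q - 1 = (Q - 1) - z * Q := by ring
      rw [this]
      refine (norm_sub_le _ _).trans ?_
      rw [norm_mul]
      have h3 : ‖z‖ * ‖Q‖ ≤ δ * c := mul_le_mul hz h2 (norm_nonneg _) hδ
      linarith
    · rw [norm_mul]
      have h3 : ‖1 - z‖ ≤ 1 + δ := (norm_sub_le _ _).trans (by rw [norm_one]; linarith)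
      have h4 : ‖1 - z‖ * ‖Q‖ ≤ (1 + δ) * c :=
        mul_le_mul h3 h2 (norm_nonneg _) (by linarith)
      linarith

/-- The value of a polynomial with constant term `1`. -/
theorem eval_eq {p : ℂ[X]} (h0 : p.coeff 0 = 1) (x : ℂ) :
    p.eval x = (p.roots.map fun r => 1 - x / r).prod ∧ ∀ r ∈ p.roots, r ≠ 0 := by
  have hr : ∀ r ∈ p.roots, r ≠ 0 := by
    rintro r hr rfl
    have := (mem_roots'.1 hr).2
    rw [IsRoot.def, ← coeff_zero_eq_eval_zero, h0] at this
    exact one_ne_zero this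
  refine ⟨?_, hr⟩
  have hs := IsAlgClosed.splits p
  have e1 : ∀ y, p.eval y = p.leadingCoeff * (p.roots.map fun r => y - r).prod := fun y =>
    hs.eval_eq_prod_roots y
  have e0 : p.leadingCoeff * (p.roots.map fun r => 0 - r).prod = 1 := by
    rw [← e1, ← coeff_zero_eq_eval_zero, h0]
  have e2 : (p.roots.map fun r => x - r).prod =
      (p.roots.map fun r => 0 - r).prod * (p.roots.map fun r => 1 - x / r).prod := by
    rw [← Multiset.prod_map_mul]
    refine congrArg Multiset.prod (Multiset.map_congr rfl fun r h => ?_)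
    have := hr r h
    field_simp
    ring
  rw [e1, e2, ← mul_assoc, e0, one_mul]

theorem _root_.Pool.DPC.t_LIM : LIMStmt := by
  intro d P hP ε hε
  have hc : ContinuousAt (fun δ : ℝ => (1 + δ) ^ (2 * d) - 1) 0 := by fun_prop
  obtain ⟨δ₀, hδ₀, h1⟩ := Metric.continuousAt_iff.1 hc ε hε
  obtain ⟨B, hB⟩ := exists_nat_gt (1 / δ₀ ^ 2)
  refine ⟨B, fun l hl t ht => ?_⟩
  have hlp : (l : ℕ).Prime := l.2
  obtain ⟨h2, h3, h4⟩ := hP l hlp
  have hl0 : (0 : ℝ) < (l : ℕ) := by exact_mod_cast hlp.pos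
  set δ : ℝ := 1 / Real.sqrt (l : ℕ) with hδ
  have hsq : 0 < Real.sqrt (l : ℕ) := Real.sqrt_pos.2 hl0
  have hδ0 : 0 ≤ δ := by positivity
  have hδ1 : δ < δ₀ := by
    rw [hδ, div_lt_iff₀ hsq]
    have h5 : 1 / δ₀ ^ 2 < (l : ℕ) := hB.trans (by exact_mod_cast hl)
    rw [div_lt_iff₀ (by positivity)] at h5
    have h6 : 1 < (δ₀ * Real.sqrt (l : ℕ)) ^ 2 := by
      rw [mul_pow, Real.sq_sqrt hl0.le]
      linarith
    by_contra h7
    push Not at h7
    have h8 : (δ₀ * Real.sqrt (l : ℕ)) ^ 2 ≤ 1 := pow_le_one₀ (by positivity) h7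
    linarith
  set p : ℂ[X] := (P l).map (algebraMap ℚ ℂ) with hp
  have hp0 : p.coeff 0 = 1 := by rw [hp, coeff_map, h2, map_one]
  have hev : ∀ x : ℂ, aeval x (P l) = p.eval x := fun x => by
    rw [hp, eval_map, aeval_def]
  set x : ℂ := t * (((l : ℕ) : ℂ))⁻¹ with hx
  have hxn : ‖x‖ = 1 / (l : ℕ) := by
    rw [hx, norm_mul, ht, one_mul, norm_inv, Complex.norm_natCast, one_div]
  obtain ⟨e1, e2⟩ := eval_eq hp0 x
  have e3 := (prod_bound hδ0 (p.roots.map fun r => x / r) (by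
    intro z hz
    obtain ⟨r, hr, rfl⟩ := Multiset.mem_map.1 hz
    have h5 : aeval r (P l) = 0 := by
      rw [hev]
      exact (mem_roots'.1 hr).2
    have h6 := h4 r h5
    have hr0 : 0 < ‖r‖ := norm_pos_iff.2 (e2 r hr)
    rw [norm_div, hxn, div_le_iff₀ hr0, hδ]
    have h7 : (1 : ℝ) / (l : ℕ) = 1 / Real.sqrt (l : ℕ) * (1 / Real.sqrt (l : ℕ)) := by
      rw [div_mul_div_comm, one_mul, Real.mul_self_sqrt hl0.le]
    rw [h7]
    refine mul_le_mul_of_nonneg_left ?_ (by positivity)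
    rw [div_le_iff₀ hsq]
    linarith)).1
  rw [Multiset.map_map, Multiset.card_map] at e3
  have e4 : ‖p.eval x - 1‖ ≤ (1 + δ) ^ (2 * d) - 1 := by
    rw [e1]
    refine e3.trans ?_
    have h5 : Multiset.card p.roots ≤ 2 * d :=
      (p.card_roots').trans ((natDegree_map_le).trans h3)
    have h6 : (1 + δ) ^ Multiset.card p.roots ≤ (1 + δ) ^ (2 * d) :=
      pow_le_pow_right₀ (by linarith) h5
    linarith
  have e5 : (1 + δ) ^ (2 * d) - 1 < ε := by
    have h5 := h1 (x := δ) (by rw [Real.dist_eq, sub_zero, abs_of_nonneg hδ0]; exact hδ1)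
    rw [Real.dist_eq] at h5
    have h6 := (abs_lt.1 h5).2
    simp only [add_zero, one_pow] at h6
    linarith
  have e6 : Rf d P l t - (-1) ^ d * (t⁻¹) ^ d = (-1) ^ d * (t⁻¹) ^ d * (p.eval x - 1) := by
    unfold Rf
    rw [hev]
    ring
  rw [e6, norm_mul, norm_mul, norm_pow, norm_neg, norm_one, one_pow, one_mul, norm_pow, norm_inv,
    ht, inv_one, one_pow, one_mul]
  exact e4.trans_lt e5

end Pool.DPC.LIM
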