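import Pool.Agent.H29.DPC.S1

/-!
# DPC: independence of characters
-/

set_option autoImplicit false

namespace Pool.DPC.ORT

open Polynomial Complex

/-- The value at a family supported at one prime. -/
theorem pair_single (φ : Ch) (l : Nat.Primes) [DecidableEq Nat.Primes] (a : (ZMod (l : ℕ))ˣ) :
    pair φ (Pi.mulSingle l a) = φ l (a : ZMod (l : ℕ)) := by
  unfold pair
  rw [finprod_eq_single _ l]
  · rw [Pi.mulSingle_eq_same]
  · intro l' hl'
    rw [Pi.mulSingle_eq_of_ne hl']
    simp

theorem pair_one (φ : Ch) : pair φ 1 = 1 := by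
  unfold pair
  rw [← finprod_one (α := Nat.Primes) (M := ℂ)]
  refine finprod_congr fun l => ?_
  simp

theorem _root_.Pool.DPC.t_ORT (h1 : EVPStmt) : ORTStmt := by
  classical
  intro d φ q w hfin hpos hcop hq hsum
  set m := orderOf φ with hm
  have hφm : φ ^ m = 1 := pow_orderOf_eq_one φ
  have hmul : ∀ u v, pair φ (u * v) = pair φ u * pair φ v := fun u v =>
    (h1.2.2.2.1 φ φ u v hfin hfin).2.1
  have hnz : ∀ u, pair φ u ≠ 0 := by
    intro u h
    have := (h1.2.2.2.2 φ u m hfin hpos hφm).2
    rw [h, norm_zero] at this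
    exact zero_ne_one this
  let G := (Pi.evalMonoidHom (fun l : Nat.Primes => (ZMod (l : ℕ))ˣ) q).ker
  let χ : ℕ → (G →* ℂ) := fun i =>
    { toFun := fun u => ((pair φ (u : (l : Nat.Primes) → (ZMod (l : ℕ))ˣ))⁻¹) ^ (d * i)
      map_one' := by
        have : ((1 : G) : (l : Nat.Primes) → (ZMod (l : ℕ))ˣ) = 1 := rfl
        rw [this, pair_one]
        simp
      map_mul' := by
        intro u v
        have : ((u * v : G) : (l : Nat.Primes) → (ZMod (l : ℕ))ˣ) = u * v := rfl
        rw [this, hmul, mul_inv, mul_pow] }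
  have hinj : Function.Injective fun i : {i // i ∈ un m} => χ i := by
    rintro ⟨i, hi⟩ ⟨j, hj⟩ hij
    have hi' := Finset.mem_filter.1 hi
    have hj' := Finset.mem_filter.1 hj
    have e1 : ∀ u : G, (pair φ (u : (l : Nat.Primes) → (ZMod (l : ℕ))ˣ)) ^ (d * i) =
        (pair φ (u : (l : Nat.Primes) → (ZMod (l : ℕ))ˣ)) ^ (d * j) := by
      intro u
      have := DFunLike.congr_fun hij u
      have h2 : ((pair φ (u : (l : Nat.Primes) → (ZMod (l : ℕ))ˣ))⁻¹) ^ (d * i) =
        ((pair φ (u : (l : Nat.Primes) → (ZMod (l : ℕ))ˣ))⁻¹) ^ (d * j) := this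
      rw [inv_pow, inv_pow] at h2
      exact inv_injective h2
    have e2 : φ ^ (d * i) = φ ^ (d * j) := by
      funext l
      rw [Pi.pow_apply, Pi.pow_apply]
      by_cases hl : l = q
      · subst hl
        have key : ∀ a b : ℕ, a.Coprime m → b.Coprime m → φ l ^ a = φ l ^ b := by
          intro a b ha hb
          by_cases h3 : φ l = 1
          · rw [h3, one_pow, one_pow]
          · have h4 : orderOf (φ l) = 2 := orderOf_eq_prime hq h3
            have h5 : 2 ∣ m := by
              rw [← h4]
              refine orderOf_dvd_of_pow_eq_one ?_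
              have := congrFun hφm l
              rwa [Pi.pow_apply, Pi.one_apply] at this
            have h6 : ∀ a : ℕ, a.Coprime m → φ l ^ a = φ l := by
              intro a ha
              have h7 : ¬ 2 ∣ a := fun h => by
                have := Nat.dvd_gcd h h5
                rw [ha] at this
                omega
              obtain ⟨c, hc⟩ : Odd a := Nat.not_even_iff_odd.1 fun h => h7 h.two_dvd
              rw [hc, pow_add, pow_mul, hq, one_pow, one_mul, pow_one]
            rw [h6 a ha, h6 b hb]
        by_cases h3 : φ l = 1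
        · rw [h3, one_pow, one_pow]
        · rw [mul_comm, pow_mul, mul_comm, pow_mul]
          rw [key i j hi'.2 hj'.2]
      · refine MulChar.ext fun a => ?_
        have h3 := e1 ⟨Pi.mulSingle l a, by
          rw [MonoidHom.mem_ker]
          exact Pi.mulSingle_eq_of_ne (Ne.symm hl) _⟩
        simp only [pair_single] at h3
        rw [MulChar.pow_apply_coe, MulChar.pow_apply_coe]
        exact h3
    have e3 : d * i ≡ d * j [MOD m] := pow_eq_pow_iff_modEq.1 e2
    have e4 : i ≡ j [MOD m] := Nat.ModEq.cancel_left_of_coprime (by rwa [Nat.coprime_iff_gcd_eq_one] at hcop) e3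
    have e5 : i = j := Nat.ModEq.eq_of_lt_of_lt e4 (Finset.mem_range.1 hi'.1) (Finset.mem_range.1 hj'.1)
    subst e5
    rfl
  have hli := (linearIndependent_monoidHom G ℂ).comp _ hinj
  rw [Fintype.linearIndependent_iff] at hli
  intro i hi
  refine hli (fun i => w i) ?_ ⟨i, hi⟩
  funext u
  rw [Finset.sum_apply]
  have h3 := hsum (u : (l : Nat.Primes) → (ZMod (l : ℕ))ˣ) u.2
  rw [← Finset.sum_coe_sort] at h3
  rw [Pi.zero_apply, ← h3]
  refine Finset.sum_congr rfl fun i _ => ?_
  rfl

end Pool.DPC.ORT
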