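import Pool.Agent.H29.DPC.S1

/-!
# DPC: the step for the characters without two components of order `q`
-/

set_option autoImplicit false

namespace Pool.DPC.STB

open Polynomial Complex

/-- A tame character with one ramified prime: the order of the component. -/
theorem ord_comp {χ : Ch} {p : Nat.Primes} (h : sup χ = {p}) {i : ℕ} (hi : χ p ^ i = 1) :
    χ ^ i = 1 := by
  funext l
  rw [Pi.pow_apply, Pi.one_apply]
  by_cases hl : l = p
  · subst hl; exact hi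
  · have : l ∉ sup χ := by rw [h]; exact hl
    have h1 : χ l = 1 := not_not.1 this
    rw [h1, one_pow]

theorem off {χ : Ch} {p l : Nat.Primes} (h : sup χ = {p}) (hl : l ≠ p) : χ l = 1 := by
  have : l ∉ sup χ := by rw [h]; exact hl
  exact not_not.1 this

theorem comp_ne {χ : Ch} {p : Nat.Primes} (h : sup χ = {p}) {q b : ℕ} (hq : orderOf χ = q)
    (h1 : 1 ≤ b) (h2 : b < q) : χ p ^ b ≠ 1 := by
  intro hb
  have h3 := ord_comp h hb
  have h4 := orderOf_dvd_of_pow_eq_one h3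
  rw [hq] at h4
  exact absurd (Nat.le_of_dvd h1 h4) (not_le.2 h2)

theorem finprod_pair {p p' : Nat.Primes} (h : p ≠ p') (f : Nat.Primes → ℂ) :
    ∏ᶠ l ∈ ({p, p'} : Set Nat.Primes), f l = f p * f p' :=
  finprod_mem_pair h

/-- The terms of the second sum vanish. -/
theorem term_zero (hSUP : SUPStmt) {n : ℕ} {W : Ch → ℂ} {R : Nat.Primes → ℂ → ℂ} (hn : 0 < n)
    {φ χ₁ χ₂ : Ch} {q p₁ p₂ : Nat.Primes} (hφ : Tame n φ) (h1 : Tame n χ₁) (h2 : Tame n χ₂)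
    (hd : (q : ℕ) ∣ orderOf φ) (hq2 : φ q ^ 2 = 1)
    (hIH : IH n W (orderOf φ))
    (hTwo : ∀ ψ : Ch, Tame n ψ → orderOf ψ = orderOf φ → ψ q ^ 2 = 1 → Two (q : ℕ) ψ → W ψ = 0)
    (s1 : sup χ₁ = {p₁}) (s2 : sup χ₂ = {p₂}) (o1 : orderOf χ₁ = q) (o2 : orderOf χ₂ = q)
    (hp : p₁ ≠ p₂) (hp1 : p₁ ∉ sup φ) (hp2 : p₂ ∉ sup φ) (hq1 : q ≠ p₁) (hq2' : q ≠ p₂)
    {i b : ℕ} (hi : (q : ℕ) ∣ i) (hb1 : 1 ≤ b) (hb2 : b < q) (C : Set Nat.Primes) :
    wl W R C (φ ^ i * (χ₁ * χ₂) ^ b) = 0 := by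
  obtain ⟨-, -, -, -, -, tmul, tpow, tord, -⟩ := hSUP
  have hψ : Tame n (φ ^ i * (χ₁ * χ₂) ^ b) :=
    tmul _ _ _ (tpow _ _ _ hφ) (tpow _ _ _ (tmul _ _ _ h1 h2))
  have hfp1 : φ p₁ = 1 := not_not.1 hp1
  have hfp2 : φ p₂ = 1 := not_not.1 hp2
  have hqp : (q : ℕ).Prime := q.2
  have hmpos : 0 < orderOf φ := (tord _ _ hn hφ).1
  obtain ⟨m', hm'⟩ := hd
  obtain ⟨i', hi'⟩ := hi
  have hχ1 : χ₁ ^ (q : ℕ) = 1 := by rw [← o1]; exact pow_orderOf_eq_one _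
  have hχ2 : χ₂ ^ (q : ℕ) = 1 := by rw [← o2]; exact pow_orderOf_eq_one _
  have hpow : (φ ^ i * (χ₁ * χ₂) ^ b) ^ orderOf φ = 1 := by
    rw [mul_pow, ← pow_mul, mul_comm i, pow_mul, pow_orderOf_eq_one, one_pow, one_mul, ← pow_mul,
      mul_comm b, hm', mul_assoc, pow_mul, mul_pow, hχ1, hχ2, one_mul, one_pow]
  have hdvd : orderOf (φ ^ i * (χ₁ * χ₂) ^ b) ∣ orderOf φ := orderOf_dvd_of_pow_eq_one hpow
  have hW : W (φ ^ i * (χ₁ * χ₂) ^ b) = 0 := by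
    rcases lt_or_eq_of_le (Nat.le_of_dvd hmpos hdvd) with h | h
    · exact hIH _ hψ h
    · refine hTwo _ hψ h ?_ ⟨p₁, p₂, hp, ?_, ?_, ?_, ?_⟩
      · simp only [Pi.mul_apply, Pi.pow_apply]
        rw [off s1 hq1, off s2 hq2', one_mul, one_pow, mul_one, ← pow_mul, mul_comm, pow_mul, hq2,
          one_pow]
      · simp only [Pi.mul_apply, Pi.pow_apply]
        rw [hfp1, one_pow, one_mul, off s2 hp, mul_one]
        exact comp_ne s1 o1 hb1 hb2
      · simp only [Pi.mul_apply, Pi.pow_apply]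
        rw [hfp2, one_pow, one_mul, off s1 hp.symm, one_mul]
        exact comp_ne s2 o2 hb1 hb2
      · simp only [Pi.mul_apply, Pi.pow_apply]
        rw [hfp1, one_pow, one_mul, off s2 hp, mul_one, ← pow_mul, mul_comm, pow_mul]
        have := congrFun hχ1 p₁
        rw [Pi.pow_apply, Pi.one_apply] at this
        rw [this, one_pow]
      · simp only [Pi.mul_apply, Pi.pow_apply]
        rw [hfp2, one_pow, one_mul, off s1 hp.symm, one_mul, ← pow_mul, mul_comm, pow_mul]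
        have := congrFun hχ2 p₂
        rw [Pi.pow_apply, Pi.one_apply] at this
        rw [this, one_pow]
  unfold wl
  rw [hW, zero_mul]

theorem _root_.Pool.DPC.t_STB (hMID : MIDStmt) (hDIR : DIRStmt) (hAUX : AUXStmt)
    (hORT : ORTStmt) (hLM2 : LM2Stmt) (hEVP : EVPStmt) (hSUP : SUPStmt) : STBStmt := by
  intro n d W R hn hcop hLim hE1 hE2 φ q hφ hq2 hd hd2 hφq hIH hTwo
  have hS := hSUP
  obtain ⟨-, sdis, -, -, -, tmul, tpow, tord, -⟩ := hS
  have hqp : (q : ℕ).Prime := q.2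
  have hord := tord n φ hn hφ
  have hqn : (q : ℕ) ∣ n := hd.trans hord.2
  have hm : 1 < orderOf φ := lt_of_lt_of_le hqp.one_lt (Nat.le_of_dvd hord.1 hd)
  have key : ∀ u : (l : Nat.Primes) → (ZMod (l : ℕ))ˣ, u q = 1 →
      ∑ i ∈ un (orderOf φ), W (φ ^ i) * ((pair φ u)⁻¹) ^ (d * i) = 0 := by
    intro u hu
    have hx := (hEVP.2.2.2.2 φ u (orderOf φ) hφ.fin hord.1 (pow_orderOf_eq_one φ)).2
    refine hLM2 d (orderOf φ) R (fun i => W (φ ^ i)) (pair φ u) hLim hx fun B => ?_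
    obtain ⟨p₁, b1, c1, d1, e1⟩ := hDIR (sup φ) hφ.fin u q hu B
    obtain ⟨p₂, b2, c2, d2, e2⟩ := hDIR (sup φ ∪ {p₁}) (hφ.fin.union (Set.finite_singleton _)) 1 q
      rfl B
    have hp : p₁ ≠ p₂ := fun h => d2 (Or.inr h.symm)
    have hp1 : p₁ ∉ sup φ := d1
    have hp2 : p₂ ∉ sup φ := fun h => d2 (Or.inl h)
    have hqp1 : ∀ p : Nat.Primes, (p : ℕ) % (4 * (q : ℕ)) = 1 → q ≠ p := by
      intro p hp h
      subst h
      rw [Nat.mod_eq_of_lt (by linarith [hqp.pos])] at hp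
      exact hqp.one_lt.ne' hp
    obtain ⟨χ₁, t1, s1, o1⟩ := hAUX n q hqp hqn p₁ c1
    obtain ⟨χ₂, t2, s2, o2⟩ := hAUX n q hqp hqn p₂ c2
    have hdis : Disjoint (sup χ₁) (sup χ₂) := by
      rw [s1, s2]
      exact Set.disjoint_singleton.2 hp
    have hsχ : sup (χ₁ * χ₂) = {p₁, p₂} := by
      rw [sdis _ _ hdis, s1, s2]
      rfl
    have hdis2 : Disjoint (sup φ) (sup (χ₁ * χ₂)) := by
      rw [hsχ, Set.disjoint_right]
      rintro l (rfl | rfl)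
      · exact hp1
      · exact hp2
    have hχ1 : χ₁ ^ (q : ℕ) = 1 := by rw [← o1]; exact pow_orderOf_eq_one _
    have hχ2 : χ₂ ^ (q : ℕ) = 1 := by rw [← o2]; exact pow_orderOf_eq_one _
    have : Fact (q : ℕ).Prime := ⟨hqp⟩
    have hoχ : orderOf (χ₁ * χ₂) = q := by
      refine orderOf_eq_prime (by rw [mul_pow, hχ1, hχ2, one_mul]) fun h => ?_
      have : p₁ ∈ sup (χ₁ * χ₂) := by rw [hsχ]; exact Or.inl rfl
      rw [h] at this
      exact this rfl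
    have hmid := hMID n W R hn hE1 hE2 φ (χ₁ * χ₂) q hφ (tmul _ _ _ t1 t2) hdis2 hqp hoχ hd hIH
    rw [Finset.sum_eq_zero (s := (Finset.range (orderOf φ)).filter (fun i => (q : ℕ) ∣ i)),
      add_zero] at hmid
    swap
    · intro i hi
      refine Finset.sum_eq_zero fun b hb => ?_
      exact term_zero hSUP hn hφ t1 t2 hd hφq hIH hTwo s1 s2 o1 o2 hp hp1 hp2 (hqp1 _ c1)
        (hqp1 _ c2) (Finset.mem_filter.1 hi).2 (Finset.mem_Ico.1 hb).1 (Finset.mem_Ico.1 hb).2 _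
    refine ⟨p₁, p₂, b1, b2, ?_⟩
    rw [← hmid]
    refine Finset.sum_congr rfl fun i _ => ?_
    rw [hsχ, finprod_pair hp, e1 φ subset_rfl, e2 φ Set.subset_union_left]
    have : pair φ 1 = 1 := by
      unfold pair
      rw [← finprod_one (α := Nat.Primes) (M := ℂ)]
      refine finprod_congr fun l => ?_
      simp
    rw [this, one_pow]
  have h1 := hORT d φ q (fun i => W (φ ^ i)) hφ.fin hord.1
    (Nat.Coprime.coprime_dvd_left hord.2 hcop) hφq key 1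
    (Finset.mem_filter.2 ⟨Finset.mem_range.2 hm, Nat.coprime_one_left _⟩)
  simpa using h1

end Pool.DPC.STB
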